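import Pool.Agent.W2helper66.XP.Fin
import Pool.Agent.W2helper19.XP.Packing
import Pool.Agent.W2helper24.XP.Uniq
import Pool.Agent.W2helper69.XP.Lam
import Pool.Agent.W2helper98.XP.PathA
import Pool.Agent.W2helper2.XP.PathB
import Pool.Agent.W2helper49.XP.Inv
import Pool.Agent.W2helper56.XP.Loc
import Pool.Agent.W2helper51.XP.Layer
import Pool.Agent.W2helper71.XP.EC

/-!
# Extended Petersen graphs of prime order

For every even `k` such that `4 k + 1` is prime and every `k`-element set `S` of differences, the extended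
Petersen graph XP(2(4k+1), S) has a proper edge colouring with `2 k + 1` colours (it is Class 1).
-/

set_option autoImplicit false

namespace Pool.Agent.Results.MP_45dba8_co.PrimeOrders

/-- Let `k` be even with `4 k + 1` prime, and let `S` be any `k`-element subset of `{1, …, 2 k}`. Then the
extended Petersen graph XP(2(4k+1), S) is Class 1. -/
theorem result :
  ∀ k : ℕ, Even k → (4 * k + 1).Prime → ∀ S : Finset ℕ, S ⊆ Finset.Icc 1 (2 * k) → S.card = k →
  ∀ G : SimpleGraph (ZMod (4 * k + 1) × Fin 2),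
    (∀ p q : ZMod (4 * k + 1) × Fin 2, G.Adj p q ↔
      ((p.2 = 0 ∧ q.2 = 0 ∧ min (p.1 - q.1).val (q.1 - p.1).val ∈ S) ∨
       (p.2 = 1 ∧ q.2 = 1 ∧
          min (p.1 - q.1).val (q.1 - p.1).val ∈ Finset.Icc 1 (2 * k) \ S) ∨
       (p.1 = q.1 ∧ p.2 ≠ q.2))) →
    ∃ c : Sym2 (ZMod (4 * k + 1) × Fin 2) → Fin (2 * k + 1),
      ∀ e ∈ G.edgeSet, ∀ f ∈ G.edgeSet, e ≠ f →
        (∃ v, v ∈ e ∧ v ∈ f) → c e ≠ c f :=
  fun k hk hp S hS hSc G hG =>
    Pool.Agent.W2helper66.XP.final
      (Pool.Agent.W2helper19.XP.nul Pool.Agent.W2helper24.XP.uniq Pool.Agent.W2helper69.XP.lam)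
      (Pool.Agent.W2helper51.XP.layer (Pool.Agent.W2helper56.XP.loc Pool.Agent.W2helper98.XP.patha
        Pool.Agent.W2helper2.XP.pathb Pool.Agent.W2helper49.XP.inv))
      Pool.Agent.W2helper71.XP.ec k hk hp S hS hSc G hG

end Pool.Agent.Results.MP_45dba8_co.PrimeOrders
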